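import Pool.Agent.Q109.Rho.Final

set_option autoImplicit false

namespace Pool.Agent.Results.MP_879d0a_co.MinimumRate

open Filter Q109.Rho

/-- Over all finite connected graphs with as many vertices of degree two as of degree three and no
other vertices, the growth rate of non-backtracking walks exists as a limit and is at least that of
`K4` minus an edge; the latter graph is in the class and its growth rate is the real root of
`x ^ 3 = x + 2`. -/
theorem result :
    (∀ (V : Type) (G : SimpleGraph V), InClass G →
      Tendsto (root G) atTop (nhds (rho G)) ∧ rho K4minus ≤ rho G) ∧
    InClass K4minus ∧ 0 < rho K4minus ∧ rho K4minus ^ 3 = rho K4minus + 2 :=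
  main

end Pool.Agent.Results.MP_879d0a_co.MinimumRate
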